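import Mathlib

set_option autoImplicit false

/-!
# Two non-isomorphic groups of order 189 that are term equivalent

`GA` and `GB` are two group structures on the set `ZMod 9 × ZMod 7 × ZMod 3`.
The operation of each one is a word in the operation of the other one, so that all powers
`Fin n → GA` and `Fin n → GB` have the same subgroups.
-/

namespace Pool.Agent.U685.Proj

/-- the homomorphism `j ↦ 3 j` from `ZMod 3` to `ZMod 9` -/
def t (j : ZMod 3) : ZMod 9 := 3 * (j.val : ZMod 9)

/-- the homomorphism `j ↦ 2 ^ j` from `ZMod 3` to the units of `ZMod 7` -/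
def s (j : ZMod 3) : ZMod 7 := 2 ^ j.val

lemma t_zero : t 0 = 0 := by decide
lemma t_add : ∀ a b, t (a + b) = t a + t b := by decide
lemma t_neg : ∀ a, t (-a) = - t a := by decide
lemma t_mul : ∀ a b, t a * t b = 0 := by decide
lemma t_three : ∀ a, 3 * t a = 0 := by decide
lemma s_zero : s 0 = 1 := by decide
lemma s_add : ∀ a b, s (a + b) = s a * s b := by decide
lemma s_neg : ∀ a, s a * s (-a) = 1 := by decide
lemma seven : (7 : ZMod 7) = 0 := by decide

/-- The first group: `ZMod 9 × ZMod 7 × ZMod 3` with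
`(i,u,j)(i',u',j') = (i + i' + 3 j i', u + 2 ^ j u', j + j')`. -/
@[ext] structure GA where
  i : ZMod 9
  u : ZMod 7
  j : ZMod 3
deriving DecidableEq

/-- The second group: `ZMod 9 × ZMod 7 × ZMod 3` with
`(i,u,j)(i',u',j') = (i + i' + 3 j' i, u + 2 ^ j u', j + j')`. -/
@[ext] structure GB where
  i : ZMod 9
  u : ZMod 7
  j : ZMod 3
deriving DecidableEq

instance : Mul GA := ⟨fun x y => ⟨x.i + y.i + t x.j * y.i, x.u + s x.j * y.u, x.j + y.j⟩⟩
instance : One GA := ⟨⟨0, 0, 0⟩⟩
instance : Inv GA := ⟨fun x => ⟨-x.i + t x.j * x.i, -(s (-x.j) * x.u), -x.j⟩⟩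

instance : Mul GB := ⟨fun x y => ⟨x.i + y.i + t y.j * x.i, x.u + s x.j * y.u, x.j + y.j⟩⟩
instance : One GB := ⟨⟨0, 0, 0⟩⟩
instance : Inv GB := ⟨fun x => ⟨-x.i + t x.j * x.i, -(s (-x.j) * x.u), -x.j⟩⟩

section A
variable (x y : GA)
lemma a_mul_i : (x * y).i = x.i + y.i + t x.j * y.i := rfl
lemma a_mul_u : (x * y).u = x.u + s x.j * y.u := rfl
lemma a_mul_j : (x * y).j = x.j + y.j := rfl
lemma a_one_i : (1 : GA).i = 0 := rfl
lemma a_one_u : (1 : GA).u = 0 := rfl
lemma a_one_j : (1 : GA).j = 0 := rfl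
lemma a_inv_i : (x⁻¹).i = -x.i + t x.j * x.i := rfl
lemma a_inv_u : (x⁻¹).u = -(s (-x.j) * x.u) := rfl
lemma a_inv_j : (x⁻¹).j = -x.j := rfl
end A

section B
variable (x y : GB)
lemma b_mul_i : (x * y).i = x.i + y.i + t y.j * x.i := rfl
lemma b_mul_u : (x * y).u = x.u + s x.j * y.u := rfl
lemma b_mul_j : (x * y).j = x.j + y.j := rfl
lemma b_one_i : (1 : GB).i = 0 := rfl
lemma b_one_u : (1 : GB).u = 0 := rfl
lemma b_one_j : (1 : GB).j = 0 := rfl
lemma b_inv_i : (x⁻¹).i = -x.i + t x.j * x.i := rfl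
lemma b_inv_u : (x⁻¹).u = -(s (-x.j) * x.u) := rfl
lemma b_inv_j : (x⁻¹).j = -x.j := rfl
end B

instance : Group GA := Group.ofLeftAxioms
  (by
    intro x y z
    ext
    · simp only [a_mul_i, a_mul_j, t_add]
      linear_combination (-z.i) * t_mul x.j y.j
    · simp only [a_mul_u, a_mul_j, s_add]; ring
    · simp only [a_mul_j]; ring)
  (by
    intro x
    ext
    · simp only [a_mul_i, a_one_i, a_one_j, t_zero]; ring
    · simp only [a_mul_u, a_one_u, a_one_j, s_zero]; ring
    · simp only [a_mul_j, a_one_j]; ring)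
  (by
    intro x
    ext
    · simp only [a_mul_i, a_inv_i, a_inv_j, t_neg, a_one_i]; ring
    · simp only [a_mul_u, a_inv_u, a_inv_j, a_one_u]; ring
    · simp only [a_mul_j, a_inv_j, a_one_j]; ring)

instance : Group GB := Group.ofLeftAxioms
  (by
    intro x y z
    ext
    · simp only [b_mul_i, b_mul_j, t_add]
      linear_combination (x.i) * t_mul y.j z.j
    · simp only [b_mul_u, b_mul_j, s_add]; ring
    · simp only [b_mul_j]; ring)
  (by
    intro x
    ext
    · simp only [b_mul_i, b_one_i]; ring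
    · simp only [b_mul_u, b_one_u, b_one_j, s_zero]; ring
    · simp only [b_mul_j, b_one_j]; ring)
  (by
    intro x
    ext
    · simp only [b_mul_i, b_inv_i, b_one_i]
      linear_combination (x.i) * t_mul x.j x.j
    · simp only [b_mul_u, b_inv_u, b_inv_j, b_one_u]; ring
    · simp only [b_mul_j, b_inv_j, b_one_j]; ring)

/-- the identity map -/
def toB : GA ≃ GB where
  toFun x := ⟨x.i, x.u, x.j⟩
  invFun x := ⟨x.i, x.u, x.j⟩
  left_inv _ := rfl
  right_inv _ := rfl

lemma a_pow (x : GA) (hx : x.j = 0) (n : ℕ) : x ^ n = ⟨n * x.i, n * x.u, 0⟩ := by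
  induction n with
  | zero => ext <;> simp [a_one_i, a_one_u, a_one_j]
  | succ n ih =>
    rw [pow_succ, ih]
    ext
    · simp only [a_mul_i, t_zero]; push_cast; ring
    · simp only [a_mul_u, s_zero]; push_cast; ring
    · simp only [a_mul_j, hx]; ring

lemma b_pow (x : GB) (hx : x.j = 0) (n : ℕ) : x ^ n = ⟨n * x.i, n * x.u, 0⟩ := by
  induction n with
  | zero => ext <;> simp [b_one_i, b_one_u, b_one_j]
  | succ n ih =>
    rw [pow_succ, ih]
    ext
    · simp only [b_mul_i, hx, t_zero]; push_cast; ring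
    · simp only [b_mul_u, s_zero]; push_cast; ring
    · simp only [b_mul_j, hx]; ring

/-- the operation of `GB` is a word in the operation of `GA` -/
lemma word_A (x y : GA) : toB.symm (toB x * toB y) = x * y * (x * y * x⁻¹ * y⁻¹) ^ 14 := by
  have hj : (x * y * x⁻¹ * y⁻¹).j = 0 := by
    simp only [a_mul_j, a_inv_j]; ring
  have hu : ∀ w : ZMod 7, (14 : ZMod 7) * w = 0 := by decide
  have hi : (x * y * x⁻¹ * y⁻¹).i = t x.j * y.i - t y.j * x.i := by
    simp only [a_mul_i, a_mul_j, a_inv_i, a_inv_j, t_add, t_neg]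
    linear_combination (x.i) * t_mul x.j x.j + (y.i) * t_mul y.j y.j + (x.i) * t_mul x.j y.j
  rw [a_pow _ hj]
  ext
  · simp only [a_mul_i, a_mul_j, hi, t_add]
    change x.i + y.i + t y.j * x.i = _
    push_cast
    linear_combination (5 * x.i) * t_three y.j + (14 * x.i) * t_mul y.j x.j
      + (14 * x.i) * t_mul y.j y.j - (14 * y.i) * t_mul y.j x.j - (5 * y.i) * t_three x.j
      - (14 * y.i) * t_mul x.j x.j
  · simp only [a_mul_u, a_mul_j]
    change x.u + s x.j * y.u = _
    push_cast
    rw [hu]; ring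
  · simp only [a_mul_j]
    change x.j + y.j = _
    ring

/-- the operation of `GA` is a word in the operation of `GB` -/
lemma word_B (x y : GB) : toB (toB.symm x * toB.symm y) = x * y * (x * y * x⁻¹ * y⁻¹) ^ 14 := by
  have hj : (x * y * x⁻¹ * y⁻¹).j = 0 := by
    simp only [b_mul_j, b_inv_j]; ring
  have hu : ∀ w : ZMod 7, (14 : ZMod 7) * w = 0 := by decide
  have hi : (x * y * x⁻¹ * y⁻¹).i = t y.j * x.i - t x.j * y.i := by
    simp only [b_mul_i, b_inv_i, b_inv_j, t_neg]
    linear_combination (-x.i) * t_mul y.j x.j - x.i * t_mul y.j y.j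
      + (x.i * t x.j) * t_mul y.j y.j + y.i * t_mul y.j x.j
  rw [b_pow _ hj]
  ext
  · simp only [b_mul_i, hi, t_zero]
    change x.i + y.i + t x.j * y.i = _
    push_cast
    linear_combination (-5 * x.i) * t_three y.j + (5 * y.i) * t_three x.j
  · simp only [b_mul_u, b_mul_j]
    change x.u + s x.j * y.u = _
    push_cast
    rw [hu]; ring
  · simp only [b_mul_j]
    change x.j + y.j = _
    ring

/-- the two groups are not isomorphic -/
lemma not_iso (f : GB ≃* GA) : False := by
  have key : ∀ a b n : GA, n ^ 7 = 1 → n ≠ 1 → b * n * b⁻¹ = n ^ 2 → a * n * a⁻¹ = n →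
      b * a ^ 28 * b⁻¹ = (a ^ 28) ^ 4 := by
    have c1 : ∀ j : ZMod 3, 7 * j = 0 → j = 0 := by decide
    have c2 : ∀ i : ZMod 9, 7 * i = 0 → i = 0 := by decide
    have c3 : ∀ (j : ZMod 3) (u : ZMod 7), u ≠ 0 → s j * u = 2 * u → j = 1 := by decide
    have c4 : ∀ (j : ZMod 3) (u : ZMod 7), u ≠ 0 → s j * u = u → j = 0 := by decide
    have c5 : ∀ i : ZMod 9, (1 + t 1) * (28 * i) = 4 * (28 * i) := by decide
    have c6 : ∀ u : ZMod 7, 28 * u = 0 := by decide
    intro a b n h1 h2 h3 h4
    have hnj : n.j = 0 := by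
      apply c1
      have : ∀ m : ℕ, (n ^ m).j = m * n.j := by
        intro m
        induction m with
        | zero => simp [a_one_j]
        | succ m ih => rw [pow_succ, a_mul_j, ih]; push_cast; ring
      have h := this 7
      rw [h1, a_one_j] at h
      exact h.symm
    have h1' := h1
    rw [a_pow n hnj] at h1
    have hni : n.i = 0 := c2 _ (by simpa [a_one_i] using congrArg GA.i h1)
    have hnu : n.u ≠ 0 := by
      intro h
      apply h2
      ext
      · exact hni
      · exact h
      · exact hnj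
    rw [mul_inv_eq_iff_eq_mul, a_pow n hnj] at h3
    rw [mul_inv_eq_iff_eq_mul] at h4
    have hb : b.j = 1 := by
      apply c3 _ n.u hnu
      have h := congrArg GA.u h3
      simp only [a_mul_u, s_zero] at h
      push_cast at h
      linear_combination h
    have ha : a.j = 0 := by
      apply c4 _ n.u hnu
      have h := congrArg GA.u h4
      simp only [a_mul_u, hnj, s_zero] at h
      linear_combination h
    rw [mul_inv_eq_iff_eq_mul, ← pow_mul, a_pow a ha, a_pow a ha]
    ext
    · simp only [a_mul_i, hb, t_zero]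
      have := c5 a.i
      push_cast
      linear_combination this
    · simp only [a_mul_u, s_zero]
      push_cast
      have := c6 a.u
      linear_combination (s b.j - 4) * this
    · simp only [a_mul_j]
      ring
  have h := key (f ⟨1, 0, 0⟩) (f ⟨0, 0, 1⟩) (f ⟨0, 1, 0⟩)
    (by rw [← map_pow, show (⟨0, 1, 0⟩ : GB) ^ 7 = 1 by decide, map_one])
    (by
      rw [Ne, ← map_one f, f.injective.eq_iff]
      decide)
    (by
      rw [← map_inv, ← map_mul, ← map_mul, ← map_pow]
      congr 1)
    (by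
      rw [← map_inv, ← map_mul, ← map_mul]
      congr 1)
  rw [← map_inv, ← map_pow, ← map_mul, ← map_mul, ← map_pow, f.injective.eq_iff] at h
  revert h
  decide

end Pool.Agent.U685.Proj
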