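import Mathlib
import Pool.Agent.U685.Proj

set_option autoImplicit false

namespace Pool.Agent.U685.Proj

/-- `A` and `B` are two groups on the same set (via the bijection `e`) whose operations are words
in each other. -/
structure TermEq {A B : Type} [Group A] [Group B] (e : A ≃ B) : Prop where
  left : ∀ x y : A, e.symm (e x * e y) = x * y * (x * y * x⁻¹ * y⁻¹) ^ 14
  right : ∀ x y : B, e (e.symm x * e.symm y) = x * y * (x * y * x⁻¹ * y⁻¹) ^ 14

section
variable {A B : Type} [Group A] [Group B] {e : A ≃ B}

lemma TermEq.symm (h : TermEq e) : TermEq e.symm where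
  left x y := by simpa using h.right x y
  right x y := by simpa using h.left x y

lemma TermEq.one (h : TermEq e) : e 1 = 1 := by
  have h1 := h.left 1 1
  simp only [mul_one, inv_one, one_pow] at h1
  rw [Equiv.symm_apply_eq] at h1
  exact mul_eq_left.1 h1

lemma TermEq.inv (h : TermEq e) (x : A) : e x⁻¹ = (e x)⁻¹ := by
  have h1 := h.left x x⁻¹
  rw [show x * x⁻¹ * (x * x⁻¹ * x⁻¹ * (x⁻¹)⁻¹) ^ 14 = 1 by group, Equiv.symm_apply_eq, h.one] at h1
  exact (inv_eq_of_mul_eq_one_right h1).symm

/-- The image of a subgroup of `Fin n → A` in `Fin n → B`. -/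
def TermEq.img (h : TermEq e) {ι : Type} (S : Subgroup (ι → A)) : Subgroup (ι → B) where
  carrier := {f | (fun i => e.symm (f i)) ∈ S}
  one_mem' := by
    have : (fun i : ι => e.symm ((1 : ι → B) i)) = 1 := by
      funext i
      simp [h.symm.one]
    rw [Set.mem_ofPred_eq, this]
    exact S.one_mem
  mul_mem' := by
    intro f g hf hg
    rw [Set.mem_ofPred_eq] at hf hg ⊢
    have : (fun i : ι => e.symm ((f * g) i)) =
        (fun i => e.symm (f i)) * (fun i => e.symm (g i)) *
          ((fun i => e.symm (f i)) * (fun i => e.symm (g i)) * (fun i => e.symm (f i))⁻¹ *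
            (fun i => e.symm (g i))⁻¹) ^ 14 := by
      funext i
      have := h.left (e.symm (f i)) (e.symm (g i))
      simpa using this
    rw [this]
    exact S.mul_mem (S.mul_mem hf hg) (S.pow_mem (S.mul_mem (S.mul_mem (S.mul_mem hf hg)
      (S.inv_mem hf)) (S.inv_mem hg)) 14)
  inv_mem' := by
    intro f hf
    rw [Set.mem_ofPred_eq] at hf ⊢
    have : (fun i : ι => e.symm ((f⁻¹) i)) = (fun i => e.symm (f i))⁻¹ := by
      funext i
      simp [h.symm.inv]
    rw [this]
    exact S.inv_mem hf

lemma TermEq.mem_img (h : TermEq e) {ι : Type} (S : Subgroup (ι → A)) (f : ι → B) :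
    f ∈ h.img S ↔ (fun i => e.symm (f i)) ∈ S := Iff.rfl

/-- The lattice isomorphism. -/
def TermEq.iso (h : TermEq e) (ι : Type) : Subgroup (ι → A) ≃o Subgroup (ι → B) where
  toFun S := h.img S
  invFun S := h.symm.img S
  left_inv S := by
    ext f
    rw [TermEq.mem_img, TermEq.mem_img]
    simp
  right_inv S := by
    ext f
    rw [TermEq.mem_img, TermEq.mem_img]
    simp
  map_rel_iff' := by
    intro S T
    constructor
    · intro hST f hf
      have h1 : (fun i => e (f i)) ∈ h.img S := by
        rw [TermEq.mem_img]; simpa using hf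
      have h2 := hST h1
      change (fun i => e (f i)) ∈ h.img T at h2
      rw [TermEq.mem_img] at h2
      simpa using h2
    · intro hST f hf
      exact hST hf

lemma mem_range_mulSingle {ι : Type} [DecidableEq ι] {A : Type} [Group A] (i : ι) (f : ι → A) :
    f ∈ (MonoidHom.mulSingle (fun _ : ι => A) i).range ↔ ∀ j, j ≠ i → f j = 1 := by
  constructor
  · rintro ⟨a, rfl⟩ j hj
    simp [Pi.mulSingle_eq_of_ne hj]
  · intro h
    refine ⟨f i, ?_⟩
    funext j
    by_cases hj : j = i
    · subst hj; simp
    · simp [Pi.mulSingle_eq_of_ne hj, h j hj]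

lemma TermEq.iso_range (h : TermEq e) {ι : Type} [DecidableEq ι] (i : ι) :
    h.iso ι (MonoidHom.mulSingle (fun _ : ι => A) i).range =
      (MonoidHom.mulSingle (fun _ : ι => B) i).range := by
  ext f
  change f ∈ h.img _ ↔ _
  rw [TermEq.mem_img, mem_range_mulSingle, mem_range_mulSingle]
  refine forall_congr' fun j => forall_congr' fun hj => ?_
  rw [Equiv.symm_apply_eq, h.one]

end

lemma termEq : TermEq toB := ⟨word_A, word_B⟩

lemma main :
    ¬ (∀ (G : Type) [Group G] (n : ℕ) (H : Type) [Group H]
      (φ : Subgroup (Fin (n + 2) → G) ≃o Subgroup H),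
      (∀ i : Fin (n + 2),
          (φ (MonoidHom.mulSingle (fun _ : Fin (n + 2) => G) i).range).Normal) →
      (⨆ i : Fin (n + 2), φ (MonoidHom.mulSingle (fun _ : Fin (n + 2) => G) i).range) = ⊤ →
      iSupIndep (fun i : Fin (n + 2) =>
          φ (MonoidHom.mulSingle (fun _ : Fin (n + 2) => G) i).range) →
      Nonempty (↥(φ (MonoidHom.mulSingle (fun _ : Fin (n + 2) => G) 0).range) ≃* G)) := by
  intro hall
  have h := hall GA 0 (Fin 2 → GB) (termEq.iso (Fin 2))
  simp only [termEq.iso_range] at h
  obtain ⟨f⟩ := h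
    (by
      intro i
      constructor
      intro n hn g
      rw [mem_range_mulSingle] at hn ⊢
      intro j hj
      simp [hn j hj])
    (by
      rw [eq_top_iff]
      intro f _
      have h0 : Pi.mulSingle (M := fun _ : Fin 2 => GB) 0 (f 0) ∈
          ⨆ i : Fin 2, (MonoidHom.mulSingle (fun _ : Fin 2 => GB) i).range :=
        Subgroup.mem_iSup_of_mem 0 ⟨f 0, rfl⟩
      have h1 : Pi.mulSingle (M := fun _ : Fin 2 => GB) 1 (f 1) ∈
          ⨆ i : Fin 2, (MonoidHom.mulSingle (fun _ : Fin 2 => GB) i).range :=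
        Subgroup.mem_iSup_of_mem 1 ⟨f 1, rfl⟩
      have h2 := Subgroup.mul_mem _ h0 h1
      have h3 : Pi.mulSingle (M := fun _ : Fin 2 => GB) 0 (f 0) *
          Pi.mulSingle (M := fun _ : Fin 2 => GB) 1 (f 1) = f := by
        funext j
        fin_cases j <;> simp
      rwa [h3] at h2)
    (by
      intro i
      rw [Subgroup.disjoint_def]
      intro x hx hx'
      have hle : (⨆ j, ⨆ (_ : j ≠ i), (MonoidHom.mulSingle (fun _ : Fin 2 => GB) j).range) ≤
          (Pi.evalMonoidHom (fun _ : Fin 2 => GB) i).ker := by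
        refine iSup_le fun j => iSup_le fun hj => ?_
        intro y hy
        rw [mem_range_mulSingle] at hy
        rw [MonoidHom.mem_ker]
        exact hy i hj.symm
      have h1 := hle hx'
      rw [MonoidHom.mem_ker] at h1
      rw [mem_range_mulSingle] at hx
      funext j
      by_cases hj : j = i
      · subst hj; exact h1
      · exact hx j hj)
  have hinj : Function.Injective (MonoidHom.mulSingle (fun _ : Fin 2 => GB) 0) :=
    Pi.mulSingle_injective (M := fun _ : Fin 2 => GB) 0
  exact not_iso (((MonoidHom.ofInjective hinj).trans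
    (MulEquiv.subgroupCongr (termEq.iso_range (0 : Fin 2)).symm)).trans f)

end Pool.Agent.U685.Proj
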